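import Mathlib
import Pool.Agent.TH905.VF.Gen

/-!
# Vojta's inequality with proximity and discriminant on Fermat intersections of every dimension

Let `k` be a number field, `a_0, …, a_{q-1}` linear forms in `n + 1` variables over `k`, any `n + 1`
of them linearly independent, `q ≥ n + 2`, and `m ≥ 1`. The points `(y_0 : … : y_{q-1})` such that
`(y_0 ^ m : … : y_{q-1} ^ m) = (a_0(x) : … : a_{q-1}(x))` for some `x` in `ℙ^n` form a smooth complete
intersection `X_m` of dimension `n` of `q - n - 1` hypersurfaces of degree `m` in `ℙ^(q-1)`; for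
`q = n + 2` it is a diagonal hypersurface. Let `D` be the divisor `y_0 ⋯ y_{q-1} = 0` on `X_m`; it has
normal crossings. `h_K(P) = (m (q - n - 1) - q) h(P)` and `m h(P) = h(x) + O(1)`.

We consider all points `P` of all `X_m` above the `k`-rational points `x` of `ℙ^n`; their degree over
`k` is at most `m ^ (q-1)`. Vojta's inequality with the term `ε m h(P)` is
`(θ m - q) h(P) + ∑_{ν ∈ S} λ_D(P, ν) ≤ d_k(P) + c` for `θ = q - n - 1 - ε`. We prove it for all `x`
outside a small set, for all `m` at once.

Proof: the truncated counting function of the arrangement over `k`, without the primes in `S`, is at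
most the logarithmic discriminant of `P` plus the truncated counting function over `k(P)`, and this
is at most `q h(P)` minus the proximity function, by the product formula; for the points with
a small truncated counting function over `k` see `HyperplaneExceptions` (MP_9ec3f0_nt) of the
starting files.
-/

set_option autoImplicit false

namespace Pool.Agent.Results.MP_71c16a_nt.FermatProximity

open NumberField IsDedekindDomain LinearAlgebra.Projectivization

/-- The value of the linear form with coefficients `a` at `x`. -/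
def lin {k : Type} [Field k] {n : ℕ} (a x : Fin (n + 1) → k) : k := ∑ j, a j * x j

/-- The logarithmic height, relative to `k`, of the point with homogeneous coordinates `y` in the
extension `L` of `k`. -/
noncomputable def height (k : Type) {L : Type} [Field k] [NumberField k] [Field L] [NumberField L]
    [Algebra k L] {q : ℕ} (y : Fin q → L) : ℝ := Height.logHeight y / Module.finrank k L

/-- The logarithmic discriminant `log |disc L| / [L : k] - log |disc k|`. -/
noncomputable def logDisc (k L : Type) [Field k] [NumberField k] [Field L] [NumberField L]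
    [Algebra k L] : ℝ :=
  Real.log |(discr L : ℝ)| / Module.finrank k L - Real.log |(discr k : ℝ)|

/-- The local Weil function `∑ i, log (max_j |y_j| / |y_i|)` of the divisor `D`, for an absolute
value. -/
noncomputable def weil {L : Type} [Field L] {q : ℕ} (f : AbsoluteValue L ℝ) (y : Fin q → L) : ℝ :=
  ∑ i, Real.log ((⨆ j, f (y j)) / f (y i))

/-- The proximity function `∑_{ν ∈ S} λ_D(P, ν)`, relative to `k`, where `S` consists of the
archimedean places and of the primes in the finite set `S`: the sum of the local Weil functions over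
the infinite places `w` of `L` (with the factor `[L_w : ℝ]`) and over the primes of `L` above the
primes in `S` (with the absolute value `N(w) ^ (- ord_w)`), divided by `[L : k]`. -/
noncomputable def proximity {k L : Type} [Field k] [NumberField k] [Field L] [NumberField L]
    [Algebra k L] {q : ℕ} (S : Finset (HeightOneSpectrum (𝓞 k))) (y : Fin q → L) : ℝ :=
  (∑ w : InfinitePlace L, (w.mult : ℝ) * weil w.1 y +
    ∑ᶠ w ∈ {w : HeightOneSpectrum (𝓞 L) | ∃ v ∈ S, w.asIdeal.LiesOver v.asIdeal},
      weil (FinitePlace.mk w).1 y) / Module.finrank k L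

/-- For some `m ≥ 1`, there are a number field `L` containing `k` and a point
`P = (y_0 : … : y_{q-1})` over `L` with `(y_i ^ m) = t v`, `t ≠ 0`, which violates
`(θ m - q) h(P) + ∑_{ν ∈ S} λ_D(P, ν) ≤ d_k(L) + c`. -/
def Violates {k : Type} [Field k] [NumberField k] {q : ℕ} (S : Finset (HeightOneSpectrum (𝓞 k)))
    (θ c : ℝ) (v : Fin q → k) : Prop :=
  ∃ (m : ℕ) (L : Type) (_ : Field L) (_ : NumberField L) (_ : Algebra k L) (y : Fin q → L) (t : L),
    1 ≤ m ∧ t ≠ 0 ∧ (∀ i, y i ^ m = t * algebraMap k L (v i)) ∧
      logDisc k L + c < (θ * m - q) * height k y + proximity S y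

/-- The `k`-rational points `x` of `ℙ^n` of height at most `B` off the hyperplanes `a_i = 0` above
which some point of some `X_m` violates the inequality. -/
def exceptional {k : Type} [Field k] [NumberField k] {n q : ℕ}
    (S : Finset (HeightOneSpectrum (𝓞 k))) (a : Fin q → Fin (n + 1) → k) (θ c B : ℝ) :
    Set (ℙ k (Fin (n + 1) → k)) :=
  {x | (∀ i, lin (a i) x.rep ≠ 0) ∧ x.mulHeight ≤ B ∧ Violates S θ c fun i => lin (a i) x.rep}

/-- The exponent. -/
noncomputable def exponent (n q : ℕ) (θ : ℝ) : ℝ :=
  min (θ * (1 - ((q - n).choose (n + 1) : ℝ) / (q.choose (n + 1) : ℝ)))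
    (((n : ℝ) + 1) * (1 - (n : ℝ) * ((q : ℝ) - θ) / ((q : ℝ) * ((q : ℝ) - 1))))

lemma Violates.prox {k : Type} [Field k] [NumberField k] {q : ℕ}
    {S : Finset (HeightOneSpectrum (𝓞 k))} {θ c : ℝ} {v : Fin q → k} (h : Violates S θ c v) :
    ∃ (m : ℕ) (L : Type) (_ : Field L) (_ : NumberField L) (_ : Algebra k L) (y : Fin q → L) (t : L),
      m ≠ 0 ∧ t ≠ 0 ∧ (∀ i, y i ^ m = t * algebraMap k L (v i)) ∧
      Pool.Agent.TH905.VF.ld k L + c <
        (θ * m - q) * Pool.Agent.TH905.VF.ht k y + Pool.Agent.TH905.VF.prox S y := by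
  obtain ⟨m, L, i1, i2, i3, y, t, hm, ht, hy, hvi⟩ := h
  exact ⟨m, L, i1, i2, i3, y, t, by omega, ht, hy, hvi⟩

/-- **Vojta's inequality with proximity for the algebraic points of Fermat intersections.** Let `k`
be a number field, `S` a finite set of primes of `k`, `θ ≥ 0`, `c` real and `δ > 0`. Let
`a_0, …, a_{q-1}` be linear forms in `n + 1 ≥ 2` variables over `k`, any `n + 1` of them linearly
independent, `q ≥ n + 1`. For all but `O(B ^ (exponent n q θ + δ))` points `x` of `ℙ^n(k)` of height at
most `B` off the hyperplanes, ALL points `P` of ALL `X_m`, `m ≥ 1`, above `x` satisfy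
`(θ m - q) h(P) + ∑_{ν ∈ S ∪ S_∞} λ_D(P, ν) ≤ d_k(P) + c`. For `θ = q - n - 1 - ε` it is Vojta's
inequality with the term `ε m h(P)`. The exponent is smaller than `n + 1` for `θ < q`, and at most `θ`
for the diagonal hypersurfaces (`q = n + 2`) of dimension `n ≥ 2`, where `θ = 1 - ε`. -/
theorem result (k : Type) [Field k] [NumberField k] (S : Finset (HeightOneSpectrum (𝓞 k)))
    (θ c δ : ℝ) (hθ : 0 ≤ θ) (hδ : 0 < δ) (n q : ℕ) (hn : 1 ≤ n) (hq : n + 1 ≤ q)
    (a : Fin q → Fin (n + 1) → k)
    (ha : ∀ I : Finset (Fin q), I.card = n + 1 → LinearIndependent k (fun i : I => a i)) :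
    (θ < q → exponent n q θ < n + 1) ∧ (q = n + 2 → 2 ≤ n → exponent n q θ ≤ θ) ∧
    ∃ M : ℝ, ∀ B : ℝ, 1 ≤ B → (exceptional S a θ c B).Finite ∧
      ((exceptional S a θ c B).ncard : ℝ) ≤ M * B ^ (exponent n q θ + δ) := by
  refine ⟨(Pool.Agent.Results.MP_9ec3f0_nt.HyperplaneExceptions.result k n q hn hq a ha
    ∅ θ c δ hθ hδ).1, ?_, ?_⟩
  · rintro rfl hn2
    refine (min_le_left _ _).trans ?_
    have h1 : (n + 2 - n).choose (n + 1) = 0 := by
      rw [Nat.add_sub_cancel_left]
      exact Nat.choose_eq_zero_of_lt (by omega)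
    rw [h1, Nat.cast_zero, zero_div, sub_zero, mul_one]
  · obtain ⟨M, hM⟩ := Pool.Agent.TH905.VF.gen_main k n q hn hq a ha S θ c δ hθ hδ
    refine ⟨M, fun B hB => ?_⟩
    obtain ⟨h1, h2⟩ := hM B hB
    have hsub : exceptional S a θ c B ⊆ Pool.Agent.TH905.VF.E1 S a θ c B := by
      rintro x ⟨hl, hB', hv⟩
      exact ⟨hl, hB', hv.prox⟩
    refine ⟨h1.subset hsub, le_trans ?_ h2⟩
    exact_mod_cast Set.ncard_le_ncard hsub h1

end Pool.Agent.Results.MP_71c16a_nt.FermatProximity
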