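import Pool.Agent.TH954.X2.FinA5
import Pool.Agent.TH954.X2.LatTU
import Pool.Agent.TH954.X2.Inst
import Pool.Agent.TH954.X2.Pad
import Pool.Agent.TH954.X.BlkA2
import Pool.Agent.TH954.X.FamR
import Pool.Agent.TH954.X.Greedy
import Pool.Agent.TH954.X.SolveR
import Pool.Agent.TH954.X.Gen

/-!
# Vojta's inequality for algebraic points near small subgroups, on projective varieties over products
of abelian varieties
-/

set_option autoImplicit false

open NumberField MvPolynomial Pool.Agent.TH954.X

namespace Pool.Agent.Results.MP_71c16a_nt.SmallSubgroups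

/-- the indices of the factors of `B = ∏ A b ^ k b` -/
abbrev Idx {β : ℕ} (k : Fin β → ℕ) : Type := (b : Fin β) × Fin (k b)

/-- the points over `F` of `B = ∏ A b ^ k b` -/
abbrev Pts {K : Type} [Field K] {n β : ℕ} (A : Fin β → AbV K n) (k : Fin β → ℕ) (F : Type)
    [Field F] [Algebra K F] : Type := ∀ b, Fin (k b) → (A b).Pt F

/-- the coordinates of a point of `B = ∏ A b ^ k b` -/
def crds {K : Type} [Field K] {n β : ℕ} {A : Fin β → AbV K n} {k : Fin β → ℕ} {F : Type}
    [Field F] [Algebra K F] (P : Pts A k F) : Idx k → Fin n → F := fun i => (P i.1 i.2).1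

/-- the coordinates of the point `(t, P)` of `ℙ × B`, with `ℙ` the projective space of dimension
`n - 1` -/
def full {K : Type} [Field K] {n β : ℕ} {A : Fin β → AbV K n} {k : Fin β → ℕ} {F : Type}
    [Field F] [Algebra K F] (t : Fin n → F) (P : Pts A k F) : Option (Idx k) → Fin n → F :=
  fun o => Option.elim o t (crds P)

/-- `(t, P)` is a point over `F` of the closed subset `X : g = 0` of `ℙ × B` -/
def OnX {K : Type} [Field K] {n β : ℕ} {A : Fin β → AbV K n} {k : Fin β → ℕ} {q : ℕ}
    (g : Fin q → MvPolynomial (Option (Idx k) × Fin n) K) {F : Type} [Field F] [Algebra K F]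
    (t : Fin n → F) (P : Pts A k F) : Prop := t ≠ 0 ∧ ∀ i, ev (g i) (full t P) = 0

/-- the local height of the point `u` of a product of projective spaces with respect to the
subscheme `W : f = 0`, where `f i` has multidegree `δ i`: minus the logarithm of
`max_i |f i (u)|_v / ∏_j |u_j|_v ^ (δ i j)`, with `|u_j|_v` the maximum of the absolute values of the
coordinates of `u_j` -/
noncomputable def lambda {K L ι : Type} [Field K] [Field L] [Algebra K L] [Fintype ι] {n s : ℕ}
    (f : Fin s → MvPolynomial (ι × Fin n) K) (δ : Fin s → ι → ℕ)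
    (v : AbsoluteValue L ℝ) (u : ι → Fin n → L) : ℝ :=
  -Real.log (⨆ i, v (ev (f i) u) / ∏ j, (⨆ c, v (u j c)) ^ δ i j)

/-- the absolute value of a finite place (normalised so that the product formula holds) -/
def abvFin {L : Type} [Field L] [NumberField L] (v : FinitePlace L) : AbsoluteValue L ℝ := v.val

/-- the absolute value of an infinite place -/
def abvInf {L : Type} [Field L] (w : InfinitePlace L) : AbsoluteValue L ℝ := w.val

/-- the height attached to `W : f = 0`: the sum of the local heights over the places of `L`, divided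
by `[L : K]` -/
noncomputable def heightW {K L ι : Type} [Field K] [Field L] [NumberField L] [Algebra K L]
    [Fintype ι] {n s : ℕ} (f : Fin s → MvPolynomial (ι × Fin n) K)
    (δ : Fin s → ι → ℕ) (u : ι → Fin n → L) : ℝ :=
  (∑ w : InfinitePlace L, (w.mult : ℝ) * lambda f δ (abvInf w) u +
    ∑ᶠ v : FinitePlace L, lambda f δ (abvFin v) u) / Module.finrank K L

/-- the sum of the logarithmic heights of the points `u_j` of projective space, relative to `K` (the
heights relative to `L` divided by `[L : K]`) -/
noncomputable def height (K : Type) {L ι : Type} [Field K] [Field L] [NumberField L] [Algebra K L]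
    [Fintype ι] {n : ℕ} (u : ι → Fin n → L) : ℝ :=
  (∑ j, Height.logHeight (u j)) / Module.finrank K L

/-- the image in `B = ∏ A b ^ k b` of the closed subscheme `W : f = 0` of `X : g = 0` has dimension
at most `y`: for each field extension `F` of `K` and every point of `W(F)`, its image in `B(F)`
generates an extension of `K` of transcendence degree at most `y` -/
def ImageDimLe {K : Type} [Field K] {n β : ℕ} (A : Fin β → AbV K n) {k : Fin β → ℕ} {q s : ℕ}
    (g : Fin q → MvPolynomial (Option (Idx k) × Fin n) K)
    (f : Fin s → MvPolynomial (Option (Idx k) × Fin n) K) (y : ℕ) : Prop :=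
  ∀ (F : Type) [Field F] [Algebra K F] (t : Fin n → F) (P : Pts A k F), OnX g t P →
    (∀ i, ev (f i) (full t P) = 0) →
    Algebra.trdeg K (IntermediateField.adjoin K
      (Set.range (fun p : Idx k × Fin n => crds P p.1 p.2))) ≤ (y : Cardinal)

/-- the `R`-submodule of `A(L)` generated by the points `P j` has rank at most `r` over the ring of
endomorphisms `R` (rank at most `r * ρ` over `ℤ`, with `ρ` the rank of `R`) -/
def RankLe {K L : Type} [Field K] [Field L] [Algebra K L] {n : ℕ} (A : AbV K n) {k : ℕ}
    (P : Fin k → A.Pt L) (r : ℕ) : Prop :=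
  Module.finrank ℤ (AddSubgroup.closure
    (Set.range (fun p : A.R × Fin k => A.end' L p.1 (P p.2)))) ≤ r * A.ρ

/-- the coordinates of the point `P` in `A b` generate a module of rank at most `r b` over the ring
of endomorphisms, for all `b`, and `y + ∑ r b * dim A b < ∑ k b * dim A b`; in particular `P` is in
an algebraic subgroup of `∏ A b ^ k b` of codimension greater than `y` (and conversely, if the
`A b` are simple, pairwise not isogenous, with `A.R` the ring of all endomorphisms) -/
def Small {K L : Type} [Field K] [Field L] [Algebra K L] {n β : ℕ} (A : Fin β → AbV K n)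
    {k : Fin β → ℕ} (y : ℕ) (P : Pts A k L) : Prop :=
  ∃ r : Fin β → ℕ, (∀ b, RankLe (A b) (P b) (r b)) ∧
    y + ∑ b, r b * (A b).dim < ∑ b, k b * (A b).dim

/-- the form `Φ` does not vanish identically on `∏ A b ^ k b` -/
def NotIdenticallyZero {K : Type} [Field K] {n β : ℕ} (A : Fin β → AbV K n) {k : Fin β → ℕ}
    (Φ : MvPolynomial (Idx k × Fin n) K) : Prop :=
  ∃ (F : Type) (_ : Field F) (_ : Algebra K F) (P : Pts A k F), ev Φ (crds P) ≠ 0

/-- the point `x = (t, P)` of `X` is not in `W : f = 0`, almost all local heights of `x` with respect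
to `W` are zero, and `h_W(x) ≤ ε h(P) + C` -/
def Bounded {K L : Type} [Field K] [Field L] [NumberField L] [Algebra K L] {n β : ℕ}
    {A : Fin β → AbV K n} {k : Fin β → ℕ} {s : ℕ}
    (f : Fin s → MvPolynomial (Option (Idx k) × Fin n) K)
    (δ : Fin s → Option (Idx k) → ℕ) (ε C : ℝ) (t : Fin n → L) (P : Pts A k L) : Prop :=
  (∃ i, ev (f i) (full t P) ≠ 0) ∧
    {v : FinitePlace L | lambda f δ (abvFin v) (full t P) ≠ 0}.Finite ∧
    heightW f δ (full t P) ≤ ε * height K (crds P) + C

/-- the coordinates `(z, x, y, 0, ..., 0)` of a point of a Weierstrass curve in a projective space of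
dimension at least two: `(0, 0, 1, 0, ..., 0)` for the neutral element and `(1, x, y, 0, ..., 0)` for
the other points -/
def wCoords {F : Type} [Field F] {W : WeierstrassCurve F} (n : ℕ) (P : W.toAffine.Point) :
    Fin n → F :=
  fun c => if h : c.1 < 3 then We.coords P ⟨c.1, h⟩ else 0

/-- the abelian variety `A` is the elliptic curve `y² = x³ + a x + b` with the ring of
endomorphisms `ℤ`: its points over all extension fields `F` are those of Mathlib's Weierstrass curve,
with the same group law and the coordinates `wCoords` -/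
def IsWeierstrass {K : Type} [Field K] {n : ℕ} (A : AbV K n) (a b : K) : Prop :=
  A.dim = 1 ∧ A.ρ = 1 ∧ ∀ (F : Type) [Field F] [DecidableEq F] [Algebra K F],
    ∃ e : A.Pt F ≃+ (We.curve (algebraMap K F a) (algebraMap K F b)).toAffine.Point,
      ∀ P : A.Pt F, P.1 = wCoords n (e P)

lemma rk_of_RankLe {K L : Type} [Field K] [Field L] [Algebra K L] {n : ℕ} (A : AbV K n) {k : ℕ}
    (P : Fin k → A.Pt L) (r : ℕ) (h : RankLe A P r) : A.toAbR.rk k r L P := by
  unfold AbR.rk
  rw [mul_comm]
  refine le_trans (le_of_eq ?_) h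
  have h1 : AddSubgroup.closure (Set.range
      (fun p : Fin k × Fin A.ρ => A.end' L (A.basis p.2) (P p.1))) =
      AddSubgroup.closure (Set.range (fun p : A.R × Fin k => A.end' L p.1 (P p.2))) := by
    apply le_antisymm
    · rw [AddSubgroup.closure_le]
      rintro _ ⟨p, rfl⟩
      exact AddSubgroup.subset_closure ⟨(A.basis p.2, p.1), rfl⟩
    · rw [AddSubgroup.closure_le]
      rintro _ ⟨⟨x, j⟩, rfl⟩
      have h2 : A.end' L x (P j) = ∑ a, A.basis.repr x a • A.end' L (A.basis a) (P j) := by
        conv_lhs => rw [← A.basis.sum_repr x]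
        unfold AbR.end'
        rw [map_sum]
        have h3 : ∀ (s : Finset (Fin A.ρ)) (f : Fin A.ρ → AddMonoid.End (A.Pt L)) (z : A.Pt L),
            (∑ a ∈ s, f a) z = ∑ a ∈ s, f a z := by
          classical
          intro s f z
          induction s using Finset.induction_on with
          | empty => rfl
          | insert a s ha ih =>
            rw [Finset.sum_insert ha, Finset.sum_insert ha, ← ih]
            rfl
        rw [h3]
        refine Finset.sum_congr rfl (fun a _ => ?_)
        rw [map_zsmul]
        rfl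
      have h4 : ∑ a, A.basis.repr x a • A.end' L (A.basis a) (P j) ∈ AddSubgroup.closure
          (Set.range (fun p : Fin k × Fin A.ρ => A.end' L (A.basis p.2) (P p.1))) :=
        AddSubgroup.sum_mem _ (fun a _ => AddSubgroup.zsmul_mem _
          (AddSubgroup.subset_closure (Set.mem_range_self (j, a))) _)
      rw [← h2] at h4
      exact h4
  rw [h1]

theorem exists_W (K : Type) [Field K] [NumberField K] (a b : K)
    (hD : 4 * a ^ 3 + 27 * b ^ 2 ≠ 0) (n : ℕ) (hn : 3 ≤ n) : ∃ A : AbV K n, IsWeierstrass A a b := by
  obtain ⟨A, h1, h2, h3⟩ := We.exists_weierstrass a b hD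
  obtain ⟨A', h4, h5, h6⟩ := pad K 3 n hn A
  refine ⟨A', h4.trans h1, h5.trans h2, fun F _ _ _ => ?_⟩
  obtain ⟨e, he⟩ := h3 F
  obtain ⟨e', he'⟩ := h6 F
  refine ⟨e'.trans e, fun P => ?_⟩
  funext c
  rw [he' P c]
  unfold wCoords
  split_ifs with h
  · rw [he (e' P)]
    rfl
  · rfl

/-- **Vojta's inequality for algebraic points near small subgroups, on projective varieties over
products of abelian varieties.** Let `A b`, `b = 1, ..., β`, be abelian varieties over the number
field `K` with rings of endomorphisms `R b` (for instance `ℤ`), `B = ∏ A b ^ k b`, `X` a closed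
subset of `ℙ × B` (equations `g`), `π : X → B` the projection and `W` a closed subscheme of `X`
(equations `f`, of multidegrees `δ`) with `dim π(W) ≤ y`. For every `ε > 0` there are a form `Φ` over
`K`, not vanishing identically on `B`, and real numbers `η > 0` and `C` such that the following holds
for all number fields `L` containing `K` (of any degree) and all `x = (t, P)` in `X(L)` such that
`P = π(x)` is near a point `P'` in `B(L)` as in `Small`, namely
`∑ h(P_j - P'_j) ≤ η (1 + ∑ h(P_j))` (for instance `P = P'`): if `Φ(P) ≠ 0`, then `x` is not in `W`,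
almost all local heights of `x` with respect to `W` are zero, and `h_W(x) ≤ ε ∑ h(P_j) + C`.

Moreover, all elliptic curves `y² = x³ + a x + b` over `K` are examples of such abelian varieties. -/
theorem result :
    (∀ (K : Type) [Field K] [NumberField K] (n β : ℕ) (A : Fin β → AbV K n) (k : Fin β → ℕ)
      (y q s : ℕ) (g : Fin q → MvPolynomial (Option (Idx k) × Fin n) K)
      (f : Fin s → MvPolynomial (Option (Idx k) × Fin n) K) (δ : Fin s → Option (Idx k) → ℕ),
        (∀ i, ∃ γ, MH γ (g i)) → (∀ i, MH (δ i) (f i)) → ImageDimLe A g f y →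
      ∀ ε : ℝ, 0 < ε →
      ∃ (Φ : MvPolynomial (Idx k × Fin n) K) (τ : Idx k → ℕ) (η C : ℝ), MH τ Φ ∧
        NotIdenticallyZero A Φ ∧ 0 < η ∧
        ∀ (L : Type) [Field L] [NumberField L] [Algebra K L] (t : Fin n → L) (P P' : Pts A k L),
          OnX g t P → Small A y P' → height K (crds (P - P')) ≤ η * (1 + height K (crds P)) →
          ev Φ (crds P) ≠ 0 → Bounded f δ ε C t P) ∧
    ∀ (K : Type) [Field K] [NumberField K] (a b : K), 4 * a ^ 3 + 27 * b ^ 2 ≠ 0 →
      ∀ n : ℕ, 3 ≤ n → ∃ A : AbV K n, IsWeierstrass A a b := by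
  refine ⟨?_, fun K _ _ a b hD n hn => exists_W K a b hD n hn⟩
  intro K _ _ n β A k y q s g f δ hg hf hdim ε hε
  obtain ⟨Φ, τ, h1, h2, η, hη, C, h3⟩ := finA5 (blkA2 famR latT' greedy solveR) gen A k y g hg
    f δ hf (fun F _ _ P t ht hgt hP => hdim F t P ⟨ht.ne_zero, hgt⟩ hP) ε hε
  refine ⟨Φ, τ, η, C * Module.finrank ℚ K, h1, h2, hη,
    fun L _ _ _ t P P' hX hrk hnear hP => ?_⟩
  obtain ⟨r, hrk, hr⟩ := hrk
  have h7 : Module.finrank ℚ K * Module.finrank K L = Module.finrank ℚ L :=
    Module.finrank_mul_finrank ℚ K L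
  have h8 : 0 < Module.finrank K L := by
    have h6 : 0 < Module.finrank ℚ L := Module.finrank_pos
    rcases Nat.eq_zero_or_pos (Module.finrank K L) with h | h
    · rw [h, mul_zero] at h7
      omega
    · exact h
  have h9 : (0 : ℝ) < Module.finrank K L := by exact_mod_cast h8
  have h10 : (Module.finrank ℚ L : ℝ) = Module.finrank ℚ K * Module.finrank K L := by
    rw [← h7]
    push_cast
    rfl
  have h12 : (Module.finrank K L : ℝ) ≤ Module.finrank ℚ L := by
    have h13 : (1 : ℝ) ≤ Module.finrank ℚ K := by
      exact_mod_cast (Module.finrank_pos : 0 < Module.finrank ℚ K)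
    rw [h10]
    nlinarith
  obtain ⟨h4, h5, h6⟩ := h3 L P P' t r hX.1 hX.2 hr (fun b => rk_of_RankLe _ _ _ (hrk b)) (by
    unfold height at hnear
    have h14 : (∑ i : Idx k, Height.logHeight (crds (P - P') i)) / (Module.finrank K L : ℝ) ≤
        η * (1 + (∑ i : Idx k, Height.logHeight (crds P i)) / Module.finrank K L) := hnear
    rw [div_le_iff₀ h9] at h14
    have h15 : η * (1 + (∑ i : Idx k, Height.logHeight (crds P i)) / Module.finrank K L) *
        Module.finrank K L =
        η * (Module.finrank K L + ∑ i : Idx k, Height.logHeight (crds P i)) := by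
      field_simp
    rw [h15] at h14
    refine h14.trans ?_
    refine mul_le_mul_of_nonneg_left ?_ hη.le
    exact add_le_add_left h12 _) hP
  refine ⟨h4, h5, ?_⟩
  unfold heightW height
  rw [div_le_iff₀ h9]
  have h11 : (ε * ((∑ j, Height.logHeight (crds P j)) / Module.finrank K L) +
      C * Module.finrank ℚ K) * Module.finrank K L =
      ε * ∑ j, Height.logHeight (crds P j) + C * Module.finrank ℚ L := by
    rw [h10]
    field_simp
  rw [h11]
  exact h6

end Pool.Agent.Results.MP_71c16a_nt.SmallSubgroups
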