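import Pool.Agent.TH875.Hyp

set_option autoImplicit false

/-!
# Hyperplanes in projective space and algebraic points with few places above `S`

`K` is a number field and `a i`, `i < q`, are the coefficient vectors of hyperplanes `H i` of the
projective space `ℙ^(n-1)` over `K`.
-/

namespace Pool.Agent.Results.MP_71c16a_nt.TwoPlacesHyperplanes

open NumberField IsDedekindDomain

/-- The value of the linear form with coefficients `a` at `x`. -/
def form {K L : Type} [Field K] [Field L] [Algebra K L] {n : ℕ} (a : Fin n → K) (x : Fin n → L) :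
    L := ∑ b, algebraMap K L (a b) * x b

/-- The places of a number field: the archimedean places and the primes. -/
abbrev Place (L : Type) [Field L] [NumberField L] : Type :=
  InfinitePlace L ⊕ HeightOneSpectrum (𝓞 L)

/-- The absolute value of a place. At a prime it is the normalised one, with the value
`(N v) ^ (-ord_v x)` at `x ≠ 0`. -/
noncomputable def absv {L : Type} [Field L] [NumberField L] : Place L → L → ℝ
  | Sum.inl w => fun x => w x
  | Sum.inr v => fun x => FinitePlace.mk v x

/-- The exponent of the absolute value of a place in the product formula: `1` at real places and at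
primes, `2` at complex places. -/
noncomputable def weight {L : Type} [Field L] [NumberField L] : Place L → ℝ
  | Sum.inl w => w.mult
  | Sum.inr _ => 1

/-- The local height of the hyperplane with coefficients `a` at the point with homogeneous
coordinates `x`. -/
noncomputable def weil {K L : Type} [Field K] [Field L] [NumberField L] [Algebra K L] {n : ℕ}
    (p : Place L) (a : Fin n → K) (x : Fin n → L) : ℝ :=
  Real.log ((⨆ j, absv p (x j)) / absv p (form a x))

/-- The proximity function at `x`, in absolute normalisation, for the finite set `T` of places of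
`L` and, at the place `p`, the divisor `∑ c p i • H i`. -/
noncomputable def proximity {K L : Type} [Field K] [Field L] [NumberField L] [Algebra K L]
    {n q : ℕ} (T : Finset (Place L)) (c : Place L → Fin q → ℝ) (a : Fin q → Fin n → K)
    (x : Fin n → L) : ℝ :=
  (∑ p ∈ T, weight p * ∑ i, c p i * weil p (a i) x) / Module.finrank ℚ L

/-- The absolute logarithmic height. -/
noncomputable def height {L : Type} [Field L] [NumberField L] {n : ℕ} (x : Fin n → L) : ℝ :=
  Height.logHeight x / Module.finrank ℚ L

/-- The real divisor `∑ c i • H i` on `ℙ^(n-1)` is effective and for every nonempty linear subspace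
the sum of the `c i` over the hyperplanes `H i` containing it is at most its codimension. The
linear subspace is given by the space `W` of the linear forms vanishing on it. -/
def LogCanonical {K : Type} [Field K] {n q : ℕ} (a : Fin q → Fin n → K) (c : Fin q → ℝ) : Prop :=
  (∀ i, 0 ≤ c i) ∧ ∀ W : Submodule K (Fin n → K), W ≠ ⊤ → ∀ I : Finset (Fin q),
    (∀ i ∈ I, a i ∈ W) → ∑ i ∈ I, c i ≤ Module.finrank K W

/-- Let `H i`, `i < q`, be hyperplanes in `ℙ^(n-1)` over a number field `K`, `n ≥ 2`. There is a
finite set `Z` of hyperplanes over `K` such that for every `s` there is `C` with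
`m_T(x) ≤ n max(1, s/2) h(x) + C` for every number field `L ⊇ K`, every set `T` of at most `s`
places of `L`, every choice of log canonical divisors `∑ c p i • H i` at the places `p` of `T` and
every `L`-rational point `x` of `ℙ^(n-1)` off `Z`. -/
theorem result (K : Type) [Field K] [NumberField K] (n q : ℕ) (hn : 2 ≤ n)
    (a : Fin q → Fin n → K) (ha : ∀ i, a i ≠ 0) :
    ∃ Z : Finset (Fin n → K), (∀ z ∈ Z, z ≠ 0) ∧ (∀ i, a i ∈ Z) ∧ ∀ s : ℕ, ∃ C : ℝ,
      ∀ (L : Type) [Field L] [NumberField L] [Algebra K L] (T : Finset (Place L)), T.card ≤ s →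
        ∀ c : Place L → Fin q → ℝ, (∀ p ∈ T, LogCanonical a (c p)) →
          ∀ x : Fin n → L, x ≠ 0 → (∀ z ∈ Z, form z x ≠ 0) →
            proximity T c a x ≤ n * max 1 ((s : ℝ) / 2) * height x + C := by
  classical
  obtain ⟨Z, hZ, haZ, C, hC0, hC⟩ := Pool.Agent.TH875.hyper hn a ha
  refine ⟨Z, hZ, haZ, fun s => ⟨C * s, ?_⟩⟩
  intro L _ _ _ T hT c hc x hx hZx
  have hN : (0 : ℝ) < Module.finrank ℚ L := by exact_mod_cast Module.finrank_pos
  have h1 := hC L T x hx (fun z hz => by
    rw [Pool.Agent.TH875.aeval_lin]
    exact hZx z hz) c hc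
  have hweil : ∀ (p : Place L) (b : Fin n → K), weil p b x =
      Pool.Agent.W180.OP.lam (Pool.Agent.W180.OP.av p) 1
        (Pool.Agent.W180.OP.bc L (Pool.Agent.TH875.lin K n b)) x := by
    intro p b
    unfold weil Pool.Agent.W180.OP.lam
    rw [Pool.Agent.W180.OP.eval_bc, Pool.Agent.TH875.aeval_lin, pow_one]
    cases p <;> rfl
  have hw : ∀ p : Place L, weight p = Pool.Agent.W180.OP.wt p := by
    intro p
    cases p <;> rfl
  have hprox : proximity T c a x = (∑ p ∈ T, Pool.Agent.W180.OP.wt p * ∑ i, c p i *
      Pool.Agent.W180.OP.lam (Pool.Agent.W180.OP.av p) 1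
        (Pool.Agent.W180.OP.bc L (Pool.Agent.TH875.lin K n (a i))) x) / Module.finrank ℚ L := by
    unfold proximity
    congr 1
    refine Finset.sum_congr rfl fun p _ => ?_
    rw [hw]
    congr 1
    exact Finset.sum_congr rfl fun i _ => by rw [hweil]
  have hs : (T.card : ℝ) ≤ s := by exact_mod_cast hT
  have hh := Height.logHeight_nonneg x
  have h2 : max 1 ((T.card : ℝ) / 2) ≤ max 1 ((s : ℝ) / 2) := max_le_max le_rfl (by linarith)
  have h3 : max 1 ((T.card : ℝ) / 2) * (n * Height.logHeight x) ≤
      max 1 ((s : ℝ) / 2) * (n * Height.logHeight x) :=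
    mul_le_mul_of_nonneg_right h2 (by positivity)
  have h4 : C * T.card * Module.finrank ℚ L ≤ C * s * Module.finrank ℚ L :=
    mul_le_mul_of_nonneg_right (mul_le_mul_of_nonneg_left hs hC0) hN.le
  rw [hprox, height, div_le_iff₀ hN]
  refine (h1.trans (add_le_add h3 h4)).trans (le_of_eq ?_)
  field_simp

end Pool.Agent.Results.MP_71c16a_nt.TwoPlacesHyperplanes
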